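import Pool.Agent.Run7.h249.SM.Pos

/-! Bisectors of a finite point set with distinct abscissas. -/

set_option autoImplicit false

namespace Pool.Agent.Run7.h249.SM

open Finset

/-- The set of points `(x, y)` of the plane with `a x + b y = c`. -/
def Line (a b c : ℝ) : Set (ℝ × ℝ) := {z | a * z.1 + b * z.2 = c}

/-- General position: no three distinct points of `P` lie on a common line. -/
def GeneralPosition (P : Finset (ℝ × ℝ)) : Prop :=
  ∀ a b c : ℝ, (a ≠ 0 ∨ b ≠ 0) → ∀ p ∈ P, ∀ q ∈ P, ∀ r ∈ P, p ≠ q → p ≠ r → q ≠ r →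
    ¬ (p ∈ Line a b c ∧ q ∈ Line a b c ∧ r ∈ Line a b c)

open scoped Classical in
/-- `L` is a bisector (halving line) of `P`: a line through two points of `P` such that each of
the two open half-planes bounded by it contains exactly `|P| / 2 - 1` points of `P`. -/
def IsBisector (P : Finset (ℝ × ℝ)) (L : Set (ℝ × ℝ)) : Prop :=
  ∃ a b c : ℝ, (a ≠ 0 ∨ b ≠ 0) ∧ L = Line a b c ∧
    (∃ p ∈ P, ∃ q ∈ P, p ≠ q ∧ p ∈ L ∧ q ∈ L) ∧
    (P.filter (fun p => a * p.1 + b * p.2 < c)).card = P.card / 2 - 1 ∧
    (P.filter (fun p => c < a * p.1 + b * p.2)).card = P.card / 2 - 1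

/-- distinct abscissas and no three points on a non-vertical line -/
def Good {n : ℕ} (p : Fin n → ℝ × ℝ) : Prop :=
  (∀ i j : Fin n, i ≠ j → (p i).1 ≠ (p j).1) ∧
    ∀ i j l : Fin n, l ≠ i → l ≠ j → (p i).1 ≠ (p j).1 →
      (p l).2 ≠ (p i).2 + sl p i j * ((p l).1 - (p i).1)

theorem Good.inj {n : ℕ} {p : Fin n → ℝ × ℝ} (h : Good p) : Function.Injective p := by
  intro i j hij
  by_contra hne
  exact h.1 i j hne (by rw [hij])

/-- a line through two points with different abscissas -/
theorem line_through {n : ℕ} {p : Fin n → ℝ × ℝ} {i j : Fin n} (hx : (p i).1 ≠ (p j).1)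
    {a b c : ℝ} (hab : a ≠ 0 ∨ b ≠ 0) (hi : p i ∈ Line a b c) (hj : p j ∈ Line a b c) :
    b ≠ 0 ∧ a = -(b * sl p i j) ∧ c = b * ((p i).2 - sl p i j * (p i).1) := by
  simp only [Line, Set.mem_ofPred_eq] at hi hj
  have h1 : (p j).1 - (p i).1 ≠ 0 := sub_ne_zero.mpr hx.symm
  have hb : b ≠ 0 := by
    rintro rfl
    have ha : a ≠ 0 := by tauto
    apply h1
    have : a * ((p j).1 - (p i).1) = 0 := by linarith
    exact (mul_eq_zero.mp this).resolve_left ha
  have hsl : sl p i j * ((p j).1 - (p i).1) = (p j).2 - (p i).2 := by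
    unfold sl; field_simp
  have h2 : (a + b * sl p i j) * ((p j).1 - (p i).1) = 0 := by
    linear_combination hj - hi + b * hsl
  have h3 : a = -(b * sl p i j) := by
    have := (mul_eq_zero.mp h2).resolve_right h1
    linarith
  refine ⟨hb, h3, ?_⟩
  rw [← hi, h3]
  ring

theorem card_filter_image {n : ℕ} {p : Fin n → ℝ × ℝ} (hp : Function.Injective p)
    (s : ℝ × ℝ → Prop) [DecidablePred s] :
    ((univ.image p).filter s).card = {l | s (p l)}.ncard := by
  classical
  rw [ncard_filter, filter_image, card_image_of_injective _ hp]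

/-- the line through the points `i` and `j` -/
def LineOf {n : ℕ} (p : Fin n → ℝ × ℝ) (q : Fin n × Fin n) : Set (ℝ × ℝ) :=
  Line (-sl p q.1 q.2) 1 ((p q.1).2 - sl p q.1 q.2 * (p q.1).1)

theorem mem_lineOf {n : ℕ} (p : Fin n → ℝ × ℝ) (q : Fin n × Fin n) (z : ℝ × ℝ) :
    z ∈ LineOf p q ↔ z.2 = (p q.1).2 + sl p q.1 q.2 * (z.1 - (p q.1).1) := by
  simp only [LineOf, Line, Set.mem_ofPred_eq]
  constructor <;> intro h <;> linarith

/-- the bisecting pairs -/
def Bp {n : ℕ} (p : Fin n → ℝ × ℝ) : Set (Fin n × Fin n) :=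
  {q | q.1 < q.2 ∧ (p q.1).1 ≠ (p q.2).1 ∧ (Below p q.1 q.2).ncard = n / 2 - 1 ∧
    (Above p q.1 q.2).ncard = n / 2 - 1}

theorem bisector_image {n : ℕ} {p : Fin n → ℝ × ℝ} (h : Good p) :
    {L | IsBisector (univ.image p) L} = LineOf p '' Bp p := by
  classical
  have hinj := h.inj
  have hcard : (univ.image p : Finset (ℝ × ℝ)).card = n := by
    rw [card_image_of_injective _ hinj]; simp
  have hmem : ∀ i j : Fin n, i ≠ j → p i ∈ LineOf p (i, j) ∧ p j ∈ LineOf p (i, j) := by
    intro i j hij
    have h1 : (p j).1 - (p i).1 ≠ 0 := sub_ne_zero.mpr (h.1 j i (Ne.symm hij))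
    constructor
    · rw [mem_lineOf]; simp
    · rw [mem_lineOf]
      simp only [sl]
      field_simp
      ring
  have hbel : ∀ i j : Fin n, Below p i j =
      {l | -sl p i j * (p l).1 + 1 * (p l).2 < (p i).2 - sl p i j * (p i).1} := by
    intro i j; ext l
    simp only [Below, Set.mem_ofPred_eq]
    constructor <;> intro h <;> linarith
  have habo : ∀ i j : Fin n, Above p i j =
      {l | (p i).2 - sl p i j * (p i).1 < -sl p i j * (p l).1 + 1 * (p l).2} := by
    intro i j; ext l
    simp only [Above, Set.mem_ofPred_eq]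
    constructor <;> intro h <;> linarith
  ext L
  constructor
  · rintro ⟨a, b, c, hab, rfl, ⟨z, hz, w, hw, hzw, hzL, hwL⟩, hc1, hc2⟩
    obtain ⟨i₀, -, rfl⟩ := mem_image.mp hz
    obtain ⟨j₀, -, rfl⟩ := mem_image.mp hw
    have hne₀ : i₀ ≠ j₀ := fun h => hzw (by rw [h])
    obtain ⟨i, j, hij, hiL, hjL⟩ : ∃ i j : Fin n, i < j ∧ p i ∈ Line a b c ∧ p j ∈ Line a b c := by
      rcases lt_or_gt_of_ne hne₀ with h | h
      · exact ⟨i₀, j₀, h, hzL, hwL⟩
      · exact ⟨j₀, i₀, h, hwL, hzL⟩
    have hx := h.1 i j hij.ne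
    obtain ⟨hb, ha, hc⟩ := line_through hx hab hiL hjL
    rw [hcard, card_filter_image hinj] at hc1 hc2
    refine ⟨(i, j), ?_, ?_⟩
    · rcases lt_or_gt_of_ne hb with hb | hb
      · refine ⟨hij, hx, ?_, ?_⟩
        · rw [← hc2]
          congr 1
          ext l
          simp only [Below, Set.mem_ofPred_eq, ha, hc]
          constructor
          · intro h
            nlinarith [mul_lt_mul_of_neg_left h hb]
          · intro h
            by_contra hcon
            push Not at hcon
            nlinarith [mul_le_mul_of_nonpos_left hcon hb.le]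
        · rw [← hc1]
          congr 1
          ext l
          simp only [Above, Set.mem_ofPred_eq, ha, hc]
          constructor
          · intro h
            nlinarith [mul_lt_mul_of_neg_left h hb]
          · intro h
            by_contra hcon
            push Not at hcon
            nlinarith [mul_le_mul_of_nonpos_left hcon hb.le]
      · refine ⟨hij, hx, ?_, ?_⟩
        · rw [← hc1]
          congr 1
          ext l
          simp only [Below, Set.mem_ofPred_eq, ha, hc]
          constructor
          · intro h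
            nlinarith [mul_lt_mul_of_pos_left h hb]
          · intro h
            by_contra hcon
            push Not at hcon
            nlinarith [mul_le_mul_of_nonneg_left hcon hb.le]
        · rw [← hc2]
          congr 1
          ext l
          simp only [Above, Set.mem_ofPred_eq, ha, hc]
          constructor
          · intro h
            nlinarith [mul_lt_mul_of_pos_left h hb]
          · intro h
            by_contra hcon
            push Not at hcon
            nlinarith [mul_le_mul_of_nonneg_left hcon hb.le]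
    · ext z
      rw [mem_lineOf]
      simp only [Line, Set.mem_ofPred_eq, ha, hc]
      constructor
      · intro h
        rw [h]; ring
      · intro h
        have : b * (z.2 - ((p i).2 + sl p i j * (z.1 - (p i).1))) = 0 := by
          linear_combination h
        have := (mul_eq_zero.mp this).resolve_left hb
        linarith
  · rintro ⟨⟨i, j⟩, ⟨hij, hx, h1, h2⟩, rfl⟩
    simp only at hij hx h1 h2
    refine ⟨-sl p i j, 1, (p i).2 - sl p i j * (p i).1, Or.inr one_ne_zero, rfl,
      ⟨p i, mem_image_of_mem _ (mem_univ _), p j, mem_image_of_mem _ (mem_univ _),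
        fun h => hij.ne (hinj h), (hmem i j hij.ne).1, (hmem i j hij.ne).2⟩, ?_, ?_⟩
    · rw [hcard, card_filter_image hinj, ← h1, hbel]
    · rw [hcard, card_filter_image hinj, ← h2, habo]

theorem lineOf_inj {n : ℕ} {p : Fin n → ℝ × ℝ} (h : Good p) : Set.InjOn (LineOf p) (Bp p) := by
  rintro ⟨i, j⟩ ⟨hij, hx, -, -⟩ ⟨i', j'⟩ ⟨hij', hx', -, -⟩ heq
  simp only at hij hx hij' hx'
  have hmem : ∀ i j : Fin n, i ≠ j → p i ∈ LineOf p (i, j) ∧ p j ∈ LineOf p (i, j) := by
    intro i j hij
    have h1 : (p j).1 - (p i).1 ≠ 0 := sub_ne_zero.mpr (h.1 j i (Ne.symm hij))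
    constructor
    · rw [mem_lineOf]; simp
    · rw [mem_lineOf]
      simp only [sl]
      field_simp
      ring
  have hi' : i' = i ∨ i' = j := by
    by_contra hcon
    push Not at hcon
    have := (hmem i' j' hij'.ne).1
    rw [← heq, mem_lineOf] at this
    exact h.2 i j i' hcon.1 hcon.2 hx this
  have hj' : j' = i ∨ j' = j := by
    by_contra hcon
    push Not at hcon
    have := (hmem i' j' hij'.ne).2
    rw [← heq, mem_lineOf] at this
    exact h.2 i j j' hcon.1 hcon.2 hx this
  rcases hi' with rfl | rfl <;> rcases hj' with rfl | rfl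
  · exact absurd hij' (lt_irrefl _)
  · rfl
  · exact absurd hij' (lt_asymm hij)
  · exact absurd hij' (lt_irrefl _)

/-- the number of bisectors is the number of bisecting pairs -/
theorem ncard_bisector {n : ℕ} {p : Fin n → ℝ × ℝ} (h : Good p) :
    {L | IsBisector (univ.image p) L}.ncard = (Bp p).ncard := by
  rw [bisector_image h, (lineOf_inj h).ncard_image]

theorem Good.general {n : ℕ} {p : Fin n → ℝ × ℝ} (h : Good p) :
    GeneralPosition (univ.image p) := by
  classical
  intro a b c hab x hx y hy z hz hxy hxz hyz ⟨h1, h2, h3⟩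
  obtain ⟨i, -, rfl⟩ := mem_image.mp hx
  obtain ⟨j, -, rfl⟩ := mem_image.mp hy
  obtain ⟨l, -, rfl⟩ := mem_image.mp hz
  have hx' := h.1 i j (fun h => hxy (by rw [h]))
  obtain ⟨hb, ha, hc⟩ := line_through hx' hab h1 h2
  refine h.2 i j l (fun h => hxz (by rw [h])) (fun h => hyz (by rw [h])) hx' ?_
  simp only [Line, Set.mem_ofPred_eq, ha, hc] at h3
  have : b * ((p l).2 - ((p i).2 + sl p i j * ((p l).1 - (p i).1))) = 0 := by
    linear_combination h3
  have := (mul_eq_zero.mp this).resolve_left hb
  linarith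

/-- complement of the numbers below and above in general position -/
theorem above_card {n : ℕ} {p : Fin n → ℝ × ℝ}
    (h : ∀ i j l : Fin n, l ≠ i → l ≠ j → (p i).1 ≠ (p j).1 →
      (p l).2 ≠ (p i).2 + sl p i j * ((p l).1 - (p i).1)) {i j : Fin n}
    (hx : (p i).1 ≠ (p j).1) : (Above p i j).ncard + (Below p i j).ncard + 2 = n := by
  classical
  have hij : i ≠ j := fun h => hx (by rw [h])
  have h1 : (p j).1 - (p i).1 ≠ 0 := sub_ne_zero.mpr hx.symm
  have hj : (p j).2 = (p i).2 + sl p i j * ((p j).1 - (p i).1) := by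
    unfold sl; field_simp; ring
  have hun : Above p i j ∪ Below p i j = ((univ.erase i).erase j : Finset (Fin n)) := by
    ext l
    simp only [coe_erase, coe_univ, Set.mem_sdiff, Set.mem_univ, Set.mem_singleton_iff, true_and,
      Set.mem_union, Above, Below, Set.mem_ofPred_eq]
    constructor
    · rintro (h' | h')
      · exact ⟨by rintro rfl; simp at h', by rintro rfl; rw [← hj] at h'; exact lt_irrefl _ h'⟩
      · exact ⟨by rintro rfl; simp at h', by rintro rfl; rw [← hj] at h'; exact lt_irrefl _ h'⟩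
    · rintro ⟨h2, h3⟩
      rcases lt_or_gt_of_ne (h i j l h2 h3 hx) with h' | h'
      · exact Or.inr h'
      · exact Or.inl h'
  have hdis : Disjoint (Above p i j) (Below p i j) := by
    rw [Set.disjoint_left]
    intro l h1 h2
    simp only [Above, Below, Set.mem_ofPred_eq] at h1 h2
    exact lt_asymm h1 h2
  rw [← Set.ncard_union_eq hdis (Set.toFinite _) (Set.toFinite _), hun, Set.ncard_coe_finset,
    card_erase_of_mem (by simp [Ne.symm hij]), card_erase_of_mem (mem_univ i)]
  have h2 : 1 < n := by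
    have := Fintype.one_lt_card_iff.mpr ⟨i, j, hij⟩
    simpa using this
  simp
  omega

theorem bp_sub {n : ℕ} {p : Fin n → ℝ × ℝ} (h : Good p) : Bp p ⊆ Pk (n / 2 - 1) p := by
  rintro ⟨i, j⟩ ⟨h1, h2, h3, h4⟩
  refine ⟨h1, h2, h3, ?_⟩
  have := above_card h.2 h2
  simp only at h3 h4 this ⊢
  omega

end Pool.Agent.Run7.h249.SM
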