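import Pool.Agent.H189R2.Lev.Lines

/-! Independent random points in the plane: pairs of points whose line has exactly `k` points below.
Measurability, the order statistic of the slopes, and the estimate for one point. -/

set_option autoImplicit false

namespace Pool.Agent.Run7.h249.SM

open Finset MeasureTheory Filter Pool.Agent.H189R2.Lev
open scoped ENNReal Topology

/-- abscissas times `s` -/
def X {n : ℕ} (s : ℝ) (p : Fin n → ℝ × ℝ) : Fin n → ℝ := fun l => s * (p l).1

/-- ordinates -/
def Y {n : ℕ} (p : Fin n → ℝ × ℝ) : Fin n → ℝ := fun l => (p l).2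

/-- `a l` is the `k`-th order statistic -/
def R {n : ℕ} (a : Fin n → ℝ) (k : ℕ) (l : Fin n) : Prop :=
  {l' | a l' < a l}.ncard ≤ k ∧ k < {l' | a l' ≤ a l}.ncard

/-- `j` is at least as close to the order statistic as `i` -/
def Cl {n : ℕ} (a : Fin n → ℝ) (k : ℕ) (i j : Fin n) : Prop :=
  ∃ l, R a k l ∧ |a j - a l| ≤ |a i - a l|

theorem ncard_filter {ι : Type*} [Fintype ι] (s : ι → Prop) [DecidablePred s] :
    {l | s l}.ncard = (univ.filter (fun l => s l)).card := by
  rw [← Set.ncard_coe_finset]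
  congr 1
  ext l
  simp

theorem exists_med {n k : ℕ} (hk : k < n) (a : Fin n → ℝ) :
    ∃ α : ℝ, (univ.filter (fun l => a l < α)).card ≤ k ∧
      k < (univ.filter (fun l => a l ≤ α)).card ∧
      ∀ i j, Cl a k i j ↔ |a j - α| ≤ |a i - α| := by
  classical
  obtain ⟨s, hs1, hs2⟩ := exists_stat (univ : Finset (Fin n)) (fun l => -a l) (k := k)
    (by simpa using hk)
  have hα1 : (univ.filter (fun l => a l < -s)).card ≤ k := by
    refine le_trans (card_le_card ?_) hs1
    intro l hl
    rw [mem_filter] at hl ⊢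
    exact ⟨hl.1, by linarith [hl.2]⟩
  have hα2 : k < (univ.filter (fun l => a l ≤ -s)).card := by
    refine lt_of_lt_of_le hs2 (card_le_card ?_)
    intro l hl
    rw [mem_filter] at hl ⊢
    exact ⟨hl.1, by linarith [hl.2]⟩
  set α := -s with hα
  have hex : ∃ l, a l = α := by
    by_contra hcon
    push Not at hcon
    have hsub : univ.filter (fun l => a l ≤ α) ⊆ univ.filter (fun l => a l < α) := by
      intro l hl
      rw [mem_filter] at hl ⊢
      exact ⟨hl.1, lt_of_le_of_ne hl.2 (hcon l)⟩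
    have := card_le_card hsub
    omega
  have huniq : ∀ l, R a k l → a l = α := by
    rintro l ⟨h1, h2⟩
    rw [ncard_filter] at h1 h2
    rcases lt_trichotomy (a l) α with h | h | h
    · have hsub : univ.filter (fun l' => a l' ≤ a l) ⊆ univ.filter (fun l' => a l' < α) := by
        intro l' hl'
        rw [mem_filter] at hl' ⊢
        exact ⟨hl'.1, lt_of_le_of_lt hl'.2 h⟩
      have := card_le_card hsub
      omega
    · exact h
    · have hsub : univ.filter (fun l' => a l' ≤ α) ⊆ univ.filter (fun l' => a l' < a l) := by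
        intro l' hl'
        rw [mem_filter] at hl' ⊢
        exact ⟨hl'.1, lt_of_le_of_lt hl'.2 h⟩
      have := card_le_card hsub
      omega
  refine ⟨α, hα1, hα2, fun i j => ⟨?_, ?_⟩⟩
  · rintro ⟨l, hl, h⟩
    rwa [huniq l hl] at h
  · intro h
    obtain ⟨l, hl⟩ := hex
    refine ⟨l, ⟨?_, ?_⟩, ?_⟩
    · rw [ncard_filter, hl]; exact hα1
    · rw [ncard_filter, hl]; exact hα2
    · rwa [hl]

/-! measurability -/

theorem measurable_ncard {Ω : Type*} [MeasurableSpace Ω] {ι : Type*} [Fintype ι]
    (s : Ω → ι → Prop) (hs : ∀ l, MeasurableSet {P | s P l}) :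
    Measurable (fun P : Ω => {l | s P l}.ncard) := by
  classical
  have h : (fun P : Ω => {l | s P l}.ncard) = fun P => ∑ l, if s P l then 1 else 0 := by
    ext P
    rw [ncard_filter, card_filter]
  rw [h]
  exact Finset.measurable_sum _ (fun l _ => Measurable.ite (hs l) measurable_const measurable_const)

theorem measurable_X {n : ℕ} (s : ℝ) (l : Fin n) :
    Measurable (fun p : Fin n → ℝ × ℝ => X s p l) := by
  unfold X
  exact (measurable_fst.comp (measurable_pi_apply l)).const_mul s

theorem measurable_Y {n : ℕ} (l : Fin n) :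
    Measurable (fun p : Fin n → ℝ × ℝ => Y p l) := by
  unfold Y
  exact measurable_snd.comp (measurable_pi_apply l)

theorem measurable_cr {n : ℕ} (s : ℝ) (i j : Fin n) :
    Measurable (fun p : Fin n → ℝ × ℝ => cr (X s p) (Y p) i j) := by
  unfold cr
  exact ((measurable_Y j).sub (measurable_Y i)).div ((measurable_X s i).sub (measurable_X s j))

theorem measurable_ht {n : ℕ} (s : ℝ) (i j l : Fin n) :
    Measurable (fun p : Fin n → ℝ × ℝ => ht (X s p) (Y p) l (cr (X s p) (Y p) i j)) := by
  unfold ht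
  exact ((measurable_X s l).mul (measurable_cr s i j)).add (measurable_Y l)

theorem measurableSet_count {Ω : Type*} [MeasurableSpace Ω] {f : Ω → ℕ} (hf : Measurable f)
    (S : Set ℕ) : MeasurableSet {w | f w ∈ S} := hf (MeasurableSet.of_discrete (s := S))

theorem measurableSet_below {n : ℕ} (s : ℝ) (k : ℕ) (i j : Fin n) :
    MeasurableSet {p : Fin n → ℝ × ℝ |
      {l | ht (X s p) (Y p) l (cr (X s p) (Y p) i j) <
        ht (X s p) (Y p) i (cr (X s p) (Y p) i j)}.ncard = k} :=
  measurableSet_count (measurable_ncard (fun (p : Fin n → ℝ × ℝ) l =>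
    ht (X s p) (Y p) l (cr (X s p) (Y p) i j) < ht (X s p) (Y p) i (cr (X s p) (Y p) i j))
    (fun l => measurableSet_lt (measurable_ht s i j l) (measurable_ht s i j i))) {c | c = k}

theorem measurableSet_above {n : ℕ} (s : ℝ) (k : ℕ) (i j : Fin n) :
    MeasurableSet {p : Fin n → ℝ × ℝ |
      {l | ht (X s p) (Y p) i (cr (X s p) (Y p) i j) <
        ht (X s p) (Y p) l (cr (X s p) (Y p) i j)}.ncard + k + 2 = n} :=
  measurableSet_count (measurable_ncard (fun (p : Fin n → ℝ × ℝ) l =>
    ht (X s p) (Y p) i (cr (X s p) (Y p) i j) < ht (X s p) (Y p) l (cr (X s p) (Y p) i j))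
    (fun l => measurableSet_lt (measurable_ht s i j i) (measurable_ht s i j l)))
    {c | c + k + 2 = n}

theorem measurableSet_ne {n : ℕ} (s : ℝ) (i j : Fin n) :
    MeasurableSet {p : Fin n → ℝ × ℝ | X s p i ≠ X s p j} :=
  (measurableSet_eq_fun (measurable_X s i) (measurable_X s j)).compl

theorem measurableSet_posV {n : ℕ} (s : ℝ) (k : ℕ) (i j : Fin n) :
    MeasurableSet {p : Fin n → ℝ × ℝ | PosV (X s p) (Y p) k i j} := by
  unfold PosV
  exact (measurableSet_ne s i j).inter ((measurableSet_le measurable_const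
    (measurable_cr s i j)).inter ((measurableSet_below s k i j).inter
      (measurableSet_above s k i j)))

theorem measurableSet_R {n : ℕ} (s : ℝ) (k : ℕ) (l : Fin n) :
    MeasurableSet {p : Fin n → ℝ × ℝ | R (X s p) k l} := by
  unfold R
  exact (measurableSet_count (measurable_ncard (fun (p : Fin n → ℝ × ℝ) l' =>
      X s p l' < X s p l) (fun l' => measurableSet_lt (measurable_X s l') (measurable_X s l)))
      {c | c ≤ k}).inter
    (measurableSet_count (measurable_ncard (fun (p : Fin n → ℝ × ℝ) l' =>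
      X s p l' ≤ X s p l) (fun l' => measurableSet_le (measurable_X s l') (measurable_X s l)))
      {c | k < c})

theorem measurableSet_Cl {n : ℕ} (s : ℝ) (k : ℕ) (i j : Fin n) :
    MeasurableSet {p : Fin n → ℝ × ℝ | Cl (X s p) k i j} := by
  have : {p : Fin n → ℝ × ℝ | Cl (X s p) k i j} =
      ⋃ l, ({p | R (X s p) k l} ∩ {p | |X s p j - X s p l| ≤ |X s p i - X s p l|}) := by
    ext p
    simp [Cl]
  rw [this]
  exact MeasurableSet.iUnion (fun l => (measurableSet_R s k l).inter
    (measurableSet_le ((measurable_X s j).sub (measurable_X s l)).norm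
      ((measurable_X s i).sub (measurable_X s l)).norm))

/-- the pairs counted for the point `i` -/
noncomputable def F {n : ℕ} (s : ℝ) (k : ℕ) (i : Fin n) (p : Fin n → ℝ × ℝ) : ℝ≥0∞ :=
  ({j | PosV (X s p) (Y p) k i j ∧ Cl (X s p) k i j}.ncard : ℝ≥0∞)

theorem measurable_F {n : ℕ} (s : ℝ) (k : ℕ) (i : Fin n) :
    Measurable (F s k i : (Fin n → ℝ × ℝ) → ℝ≥0∞) := by
  have h := measurable_ncard (fun (p : Fin n → ℝ × ℝ) j =>
    PosV (X s p) (Y p) k i j ∧ Cl (X s p) k i j)
    (fun j => (measurableSet_posV s k i j).inter (measurableSet_Cl s k i j))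
  exact (measurable_of_countable (fun c : ℕ => (c : ℝ≥0∞))).comp h

/-- the pairs with a crossing of nonnegative abscissa are counted -/
theorem count_pos {n k : ℕ} (hk : k < n) (s : ℝ) (p : Fin n → ℝ × ℝ) :
    ({q : Fin n × Fin n | q.1 < q.2 ∧ PosV (X s p) (Y p) k q.1 q.2}.ncard : ℝ≥0∞) ≤
      ∑ i, F s k i p := by
  classical
  obtain ⟨α, -, -, hα⟩ := exists_med hk (X s p)
  have h1 : {q : Fin n × Fin n | PosV (X s p) (Y p) k q.1 q.2 ∧ Cl (X s p) k q.1 q.2}.ncard =
      ∑ i, {j | PosV (X s p) (Y p) k i j ∧ Cl (X s p) k i j}.ncard := by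
    rw [ncard_filter, card_filter, Fintype.sum_prod_type]
    apply sum_congr rfl
    intro i _
    rw [ncard_filter, card_filter]
  have h2 : {q : Fin n × Fin n | q.1 < q.2 ∧ PosV (X s p) (Y p) k q.1 q.2}.ncard ≤
      {q : Fin n × Fin n | PosV (X s p) (Y p) k q.1 q.2 ∧ Cl (X s p) k q.1 q.2}.ncard := by
    apply Set.ncard_le_ncard_of_injOn
      (fun q : Fin n × Fin n => if |X s p q.2 - α| ≤ |X s p q.1 - α| then q else q.swap)
    · rintro ⟨i, j⟩ ⟨_, hq⟩
      by_cases h : |X s p j - α| ≤ |X s p i - α|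
      · simp only [h, if_true]
        exact ⟨hq, (hα i j).2 h⟩
      · simp only [h, if_false]
        exact ⟨hq.symm, (hα j i).2 (not_le.mp h).le⟩
    · rintro ⟨i, j⟩ ⟨hq, _⟩ ⟨i', j'⟩ ⟨hq', _⟩ heq
      simp only at hq hq' heq
      split_ifs at heq with h h' h'
      · exact heq
      · rw [Prod.swap_prod_mk, Prod.mk.injEq] at heq
        rw [heq.1, heq.2] at hq
        exact absurd hq' (lt_asymm hq)
      · rw [Prod.swap_prod_mk, Prod.mk.injEq] at heq
        rw [heq.1, heq.2] at hq
        exact absurd hq' (lt_asymm hq)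
      · rw [Prod.swap_prod_mk, Prod.swap_prod_mk, Prod.mk.injEq] at heq
        rw [heq.1, heq.2]
  unfold F
  rw [h1] at h2
  exact_mod_cast h2

end Pool.Agent.Run7.h249.SM
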