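import Pool.Agent.Run7.h249.SM.Core

/-! The expected number of pairs for independent points with laws dominated by `λ × Lebesgue`. -/

set_option autoImplicit false

namespace Pool.Agent.Run7.h249.SM

open Finset MeasureTheory Filter Pool.Agent.H189R2.Lev
open scoped ENNReal Topology

/-- the inner estimate for a finite measure dominated by Lebesgue measure -/
theorem inner_dom {n k : ℕ} (hk : k + 2 ≤ n) {M : ℝ} (a B : Fin n → ℝ) (i : Fin n)
    (hB : ∀ l, l ≠ i → |B l| ≤ M) (ν : Measure ℝ) [IsFiniteMeasure ν]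
    (hν : ∀ s t : ℝ, s ≤ t → ν (Set.Icc s t) ≤ ENNReal.ofReal (t - s))
    (hM : ∀ᵐ b ∂ν, |b| ≤ M) :
    ∫⁻ b, ({j | PosV a (Function.update B i b) k i j ∧ Cl a k i j}.ncard : ℝ≥0∞) ∂ν ≤
      ENNReal.ofReal (4 * M) := by
  classical
  by_cases h0 : ν = 0
  · simp [h0]
  have hpos : ν Set.univ ≠ 0 := by rwa [Ne, Measure.measure_univ_eq_zero]
  have htop : ν Set.univ ≠ ∞ := measure_ne_top ν _
  have hM0 : 0 ≤ M := by
    have : NeZero ν := ⟨h0⟩
    obtain ⟨b, hb⟩ := hM.exists
    exact (abs_nonneg b).trans hb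
  obtain ⟨α, hα1, hα2, hα⟩ := exists_med (k := k) (by omega) a
  set c := ν Set.univ with hc
  set ν' : Measure ℝ := c⁻¹ • ν with hν'
  have : IsProbabilityMeasure ν' := ⟨by
    rw [hν', Measure.smul_apply, smul_eq_mul]
    exact ENNReal.inv_mul_cancel hpos htop⟩
  have hcr : 0 < c.toReal := ENNReal.toReal_pos hpos htop
  have hci : c⁻¹ = ENNReal.ofReal (c.toReal⁻¹) := by
    rw [ENNReal.ofReal_inv_of_pos hcr, ENNReal.ofReal_toReal htop]
  have h1 := inner_line (k := k) hk (D := c.toReal⁻¹) (M := M) a (Function.update B i 0)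
    (fun l => by
      by_cases hl : l = i
      · subst hl; simpa using hM0
      · rw [Function.update_of_ne hl]; exact hB l hl) hα1 hα2 i ν'
    (fun s t hst => by
      rw [hν', Measure.smul_apply, smul_eq_mul, hci, ENNReal.ofReal_mul (by positivity)]
      gcongr
      exact hν s t hst)
    (by
      rw [hν']
      exact Measure.ae_smul_measure hM _)
  simp only [Function.update_idem] at h1
  have h2 : ν = c • ν' := by
    rw [hν', smul_smul, ENNReal.mul_inv_cancel hpos htop, one_smul]
  simp only [hα]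
  rw [h2, lintegral_smul_measure, smul_eq_mul]
  calc c * ∫⁻ b, ({j | PosV a (Function.update B i b) k i j ∧ |a j - α| ≤ |a i - α|}.ncard : ℝ≥0∞) ∂ν'
      ≤ c * ENNReal.ofReal (4 * c.toReal⁻¹ * M) := by gcongr
    _ = ENNReal.ofReal (4 * M) := by
      rw [← ENNReal.ofReal_toReal htop, ← ENNReal.ofReal_mul hcr.le, ENNReal.toReal_ofReal hcr.le]
      congr 1
      field_simp

/-- all ordinates are at most `M` in absolute value -/
def Strip {n : ℕ} (M : ℝ) : Set (Fin n → ℝ × ℝ) := {p | ∀ l, |(p l).2| ≤ M}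

theorem measurableSet_strip {n : ℕ} (M : ℝ) : MeasurableSet (Strip M : Set (Fin n → ℝ × ℝ)) := by
  have : (Strip M : Set (Fin n → ℝ × ℝ)) = ⋂ l, {p | |(p l).2| ≤ M} := by
    ext p; simp [Strip]
  rw [this]
  exact MeasurableSet.iInter (fun l => measurableSet_le (measurable_Y l).norm measurable_const)

theorem X_update {n : ℕ} (s : ℝ) (p : Fin n → ℝ × ℝ) (i : Fin n) (y : ℝ × ℝ) :
    X s (Function.update p i y) = Function.update (X s p) i (s * y.1) := by
  ext l
  by_cases hl : l = i
  · subst hl; simp [X]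
  · simp [X, Function.update_of_ne hl]

theorem Y_update {n : ℕ} (p : Fin n → ℝ × ℝ) (i : Fin n) (y : ℝ × ℝ) :
    Y (Function.update p i y) = Function.update (Y p) i y.2 := by
  ext l
  by_cases hl : l = i
  · subst hl; simp [Y]
  · simp [Y, Function.update_of_ne hl]

/-- integrals with respect to a measure dominated by a product -/
theorem lintegral_dom (m : Measure (ℝ × ℝ)) [IsFiniteMeasure m] (ρ : Measure ℝ) [IsFiniteMeasure ρ]
    (hm : m ≤ ρ.prod volume) :
    ∃ g : ℝ × ℝ → ℝ≥0∞, Measurable g ∧ (∀ z, g z ≤ 1) ∧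
      ∀ h : ℝ × ℝ → ℝ≥0∞, Measurable h → ∫⁻ z, h z ∂m = ∫⁻ u, (∫⁻ v, g (u, v) * h (u, v)) ∂ρ := by
  set g₀ := m.rnDeriv (ρ.prod volume) with hg₀
  have h1 : (ρ.prod volume).withDensity g₀ = m :=
    Measure.withDensity_rnDeriv_eq m _ (Measure.absolutelyContinuous_of_le hm)
  have h2 : g₀ ≤ᵐ[ρ.prod volume] 1 := Measure.rnDeriv_le_one_of_le hm
  have hg : Measurable (fun z => min (g₀ z) 1) :=
    (Measure.measurable_rnDeriv _ _).min measurable_const
  refine ⟨fun z => min (g₀ z) 1, hg, fun z => min_le_right _ _, ?_⟩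
  intro h hh
  have h3 : (ρ.prod volume).withDensity (fun z => min (g₀ z) 1) = m := by
    rw [← h1]
    apply withDensity_congr_ae
    filter_upwards [h2] with z hz
    exact min_eq_left hz
  conv_lhs => rw [← h3]
  rw [lintegral_withDensity_eq_lintegral_mul _ hg hh, lintegral_prod _ (hg.mul hh).aemeasurable]
  rfl

/-- the estimate for one point -/
theorem one_point {n k : ℕ} (hk : k + 2 ≤ n) (s : ℝ) {M : ℝ} (i : Fin n)
    (m : Measure (ℝ × ℝ)) [IsFiniteMeasure m] (ρ : Measure ℝ) [IsFiniteMeasure ρ]
    (hm : m ≤ ρ.prod volume) (p : Fin n → ℝ × ℝ) :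
    ∫⁻ y, (Strip M).indicator (F s k i) (Function.update p i y) ∂m ≤
      ENNReal.ofReal (4 * M) * ρ Set.univ := by
  classical
  obtain ⟨g, hg, hg1, hgm⟩ := lintegral_dom m ρ hm
  by_cases hp : ∀ l, l ≠ i → |(p l).2| ≤ M
  swap
  · push Not at hp
    obtain ⟨l, hl, hlM⟩ := hp
    have : ∀ y, (Strip M).indicator (F s k i) (Function.update p i y) = 0 := by
      intro y
      apply Set.indicator_of_notMem
      intro h
      have := h l
      rw [Function.update_of_ne hl] at this
      linarith
    simp [this]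
  have hmeas : Measurable (fun y : ℝ × ℝ => (Strip M).indicator (F s k i) (Function.update p i y)) :=
    ((measurable_F s k i).indicator (measurableSet_strip M)).comp (measurable_update p)
  rw [hgm _ hmeas]
  have hin : ∀ u : ℝ, ∫⁻ v, g (u, v) * (Strip M).indicator (F s k i) (Function.update p i (u, v)) ≤
      ENNReal.ofReal (4 * M) := by
    intro u
    set ν : Measure ℝ := (volume.restrict (Set.Icc (-M) M)).withDensity (fun v => g (u, v)) with hν
    have hle : ν ≤ volume.restrict (Set.Icc (-M) M) := by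
      rw [hν]
      calc (volume.restrict (Set.Icc (-M) M)).withDensity (fun v => g (u, v)) ≤
          (volume.restrict (Set.Icc (-M) M)).withDensity 1 :=
            withDensity_mono (Eventually.of_forall (fun v => hg1 _))
        _ = _ := withDensity_one
    have : IsFiniteMeasure ν := isFiniteMeasure_of_le _ hle
    have h1 := inner_dom (k := k) hk (M := M) (Function.update (X s p) i (s * u)) (Y p) i hp ν
      (fun s t _ => by
        calc ν (Set.Icc s t) ≤ (volume.restrict (Set.Icc (-M) M)) (Set.Icc s t) := hle _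
          _ ≤ volume (Set.Icc s t) := Measure.restrict_apply_le _ _
          _ = _ := Real.volume_Icc)
      (by
        have h2 : ∀ᵐ b ∂(volume.restrict (Set.Icc (-M) M)), |b| ≤ M := by
          filter_upwards [ae_restrict_mem measurableSet_Icc] with b hb
          exact abs_le.mpr hb
        exact (Measure.absolutelyContinuous_of_le hle).ae_le h2)
    refine le_trans (le_of_eq ?_) h1
    have hgu : Measurable (fun v => g (u, v)) := hg.comp measurable_prodMk_left
    have hF : Measurable (fun v => F s k i (Function.update p i (u, v))) :=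
      (measurable_F s k i).comp ((measurable_update p).comp measurable_prodMk_left)
    have h3 : ∀ v, ({j | PosV (Function.update (X s p) i (s * u)) (Function.update (Y p) i v) k i j ∧
        Cl (Function.update (X s p) i (s * u)) k i j}.ncard : ℝ≥0∞) =
        F s k i (Function.update p i (u, v)) := by
      intro v
      unfold F
      rw [X_update, Y_update]
    simp only [h3]
    rw [hν, lintegral_withDensity_eq_lintegral_mul _ hgu hF, ← lintegral_indicator measurableSet_Icc]
    apply lintegral_congr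
    intro v
    by_cases hv : v ∈ Set.Icc (-M) M
    · rw [Set.indicator_of_mem hv, Set.indicator_of_mem]
      · rfl
      · intro l
        by_cases hl : l = i
        · subst hl
          simpa using abs_le.mpr hv
        · rw [Function.update_of_ne hl]
          exact hp l hl
    · rw [Set.indicator_of_notMem hv, Set.indicator_of_notMem, mul_zero]
      intro h
      apply hv
      have := h i
      rw [Function.update_self] at this
      exact abs_le.mp this
  calc ∫⁻ u, (∫⁻ v, g (u, v) * (Strip M).indicator (F s k i) (Function.update p i (u, v))) ∂ρ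
      ≤ ∫⁻ _u, ENNReal.ofReal (4 * M) ∂ρ := lintegral_mono hin
    _ = _ := by rw [lintegral_const]

/-- pairs with crossing of nonnegative abscissa -/
theorem sum_pos {n k : ℕ} (hk : k + 2 ≤ n) (s : ℝ) {M : ℝ}
    (μ : Fin n → Measure (ℝ × ℝ)) [∀ i, IsProbabilityMeasure (μ i)] (ρ : Fin n → Measure ℝ)
    [∀ i, IsFiniteMeasure (ρ i)] (hμ : ∀ i, μ i ≤ (ρ i).prod volume) :
    ∫⁻ p in Strip M, ({q : Fin n × Fin n | q.1 < q.2 ∧ PosV (X s p) (Y p) k q.1 q.2}.ncard : ℝ≥0∞)
      ∂(Measure.pi μ) ≤ ENNReal.ofReal (4 * M) * ∑ i, ρ i Set.univ := by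
  classical
  calc ∫⁻ p in Strip M, ({q : Fin n × Fin n | q.1 < q.2 ∧ PosV (X s p) (Y p) k q.1 q.2}.ncard : ℝ≥0∞)
        ∂(Measure.pi μ)
      ≤ ∫⁻ p in Strip M, ∑ i, F s k i p ∂(Measure.pi μ) :=
        lintegral_mono (fun p => count_pos (by omega) s p)
    _ = ∑ i, ∫⁻ p in Strip M, F s k i p ∂(Measure.pi μ) :=
        lintegral_finsetSum _ (fun i _ => measurable_F s k i)
    _ = ∑ i, ∫⁻ p, (Strip M).indicator (F s k i) p ∂(Measure.pi μ) := by
        simp_rw [lintegral_indicator (measurableSet_strip M)]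
    _ = ∑ i, ∫⁻ p, ∫⁻ y, (Strip M).indicator (F s k i) (Function.update p i y) ∂(μ i)
          ∂(Measure.pi μ) := by
        apply sum_congr rfl
        intro i _
        exact pi_update μ i ((measurable_F s k i).indicator (measurableSet_strip M))
    _ ≤ ∑ i, ∫⁻ _p, ENNReal.ofReal (4 * M) * ρ i Set.univ ∂(Measure.pi μ) := by
        apply sum_le_sum
        intro i _
        exact lintegral_mono (fun p => one_point hk s i (μ i) (ρ i) (hμ i) p)
    _ = ENNReal.ofReal (4 * M) * ∑ i, ρ i Set.univ := by
        simp [mul_sum]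

end Pool.Agent.Run7.h249.SM
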