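import Pool.Agent.Run7.h249.SM.Bis

/-! The estimates for product measures: general, bounded density, Gaussian. -/

set_option autoImplicit false

namespace Pool.Agent.Run7.h249.SM

open Finset MeasureTheory Filter ProbabilityTheory
open scoped ENNReal Topology NNReal

/-- number of pairs `i < j` with different abscissas such that exactly `k` of the points lie strictly
below the line through the points `i` and `j` -/
noncomputable def N {n : ℕ} (k : ℕ) (p : Fin n → ℝ × ℝ) : ℕ :=
  {q : Fin n × Fin n | q.1 < q.2 ∧ (p q.1).1 ≠ (p q.2).1 ∧ (Below p q.1 q.2).ncard = k}.ncard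

theorem measurable_N {n : ℕ} (k : ℕ) : Measurable (fun p : Fin n → ℝ × ℝ => N k p) := by
  have h := measurable_count (n := n) {c | c = k} Set.univ
  unfold N
  simpa using h

theorem measurable_Bp {n : ℕ} : Measurable (fun p : Fin n → ℝ × ℝ => (Bp p).ncard) :=
  measurable_count (n := n) {c | c = n / 2 - 1} {c | c = n / 2 - 1}

theorem N_eq {n : ℕ} {p : Fin n → ℝ × ℝ}
    (h : ∀ i j l : Fin n, l ≠ i → l ≠ j → (p i).1 ≠ (p j).1 →
      (p l).2 ≠ (p i).2 + sl p i j * ((p l).1 - (p i).1)) (k : ℕ) : N k p = (Pk k p).ncard := by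
  unfold N Pk
  congr 1
  ext ⟨i, j⟩
  constructor
  · rintro ⟨h1, h2, h3⟩
    refine ⟨h1, h2, h3, ?_⟩
    have := above_card h h2
    simp only at h3 this ⊢
    omega
  · rintro ⟨h1, h2, h3, -⟩
    exact ⟨h1, h2, h3⟩

theorem N_integral {n k : ℕ} {M : ℝ} (hM : 0 ≤ M)
    (μ : Fin n → Measure (ℝ × ℝ)) [∀ i, IsProbabilityMeasure (μ i)] (ρ : Fin n → Measure ℝ)
    [∀ i, IsFiniteMeasure (ρ i)] (hμ : ∀ i, μ i ≤ (ρ i).prod volume) :
    ∫⁻ p in Strip M, (N k p : ℝ≥0∞) ∂(Measure.pi μ) ≤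
      ENNReal.ofReal (8 * M) * ∑ i, ρ i Set.univ := by
  have h1 : ∀ᵐ p ∂((Measure.pi μ).restrict (Strip M)), (N k p : ℝ≥0∞) = ((Pk k p).ncard : ℝ≥0∞) := by
    filter_upwards [ae_restrict_of_ae (ae_position μ ρ hμ)] with p hp
    rw [N_eq hp]
  rw [lintegral_congr_ae h1]
  by_cases hk : k + 2 ≤ n
  · exact pk_integral hk hM μ ρ hμ
  · have : ∀ p : Fin n → ℝ × ℝ, Pk k p = ∅ := by
      intro p
      ext q
      simp only [Pk, Set.mem_ofPred_eq, Set.mem_empty_iff_false, iff_false]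
      rintro ⟨-, -, -, h⟩
      omega
    simp [this]

theorem ae_good {n : ℕ} (μ : Fin n → Measure (ℝ × ℝ)) [∀ i, IsProbabilityMeasure (μ i)]
    (ρ : Fin n → Measure ℝ) [∀ i, IsFiniteMeasure (ρ i)] (hρ : ∀ i x, ρ i {x} = 0)
    (hμ : ∀ i, μ i ≤ (ρ i).prod volume) : ∀ᵐ p ∂(Measure.pi μ), Good p := by
  filter_upwards [ae_position μ ρ hμ, ae_abscissas μ ρ hρ hμ] with p h1 h2
  exact ⟨h2, h1⟩

theorem bis_le {n : ℕ} {p : Fin n → ℝ × ℝ} (h : Good p) :
    {L | IsBisector (univ.image p) L}.ncard ≤ N (n / 2 - 1) p := by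
  rw [ncard_bisector h, N_eq h.2]
  exact Set.ncard_le_ncard (bp_sub h) (Set.toFinite _)

theorem N_le {n : ℕ} (k : ℕ) (p : Fin n → ℝ × ℝ) : N k p ≤ n ^ 2 := by
  unfold N
  refine (Set.ncard_le_ncard (Set.subset_univ _) Set.finite_univ).trans ?_
  rw [Set.ncard_univ, Nat.card_eq_fintype_card]
  simp [sq]

/-! Gaussian laws -/

theorem gaussian_le (m : ℝ) {v : ℝ≥0} (hv : v ≠ 0) :
    gaussianReal m v ≤ ENNReal.ofReal ((√(2 * Real.pi * v))⁻¹) • (volume : Measure ℝ) := by
  rw [gaussianReal_of_var_ne_zero _ hv, ← withDensity_const]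
  apply withDensity_mono
  apply Eventually.of_forall
  intro x
  simp only [gaussianPDF]
  apply ENNReal.ofReal_le_ofReal
  unfold gaussianPDFReal
  have h1 : Real.exp (-(x - m) ^ 2 / (2 * v)) ≤ 1 := by
    rw [Real.exp_le_one_iff]
    apply div_nonpos_of_nonpos_of_nonneg
    · nlinarith [sq_nonneg (x - m)]
    · positivity
  have h2 : 0 ≤ (√(2 * Real.pi * v))⁻¹ := by positivity
  nlinarith

theorem prod_gaussian_le (τ : Measure ℝ) [SFinite τ] (m : ℝ) {v : ℝ≥0} (hv : v ≠ 0) :
    τ.prod (gaussianReal m v) ≤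
      (ENNReal.ofReal ((√(2 * Real.pi * v))⁻¹) • τ).prod volume := by
  rw [Measure.prod_smul_left, ← Measure.prod_smul_right]
  exact Measure.prod_mono le_rfl (gaussian_le m hv)

theorem gaussian_tail {m v' a R : ℝ} {v : ℝ≥0} (hvv : (v : ℝ) = v') (hv : 0 < v') (ha : 0 ≤ a)
    (hR : |m| ≤ R) :
    gaussianReal m v {y | ¬ |y| ≤ R + a} ≤ ENNReal.ofReal (2 * Real.exp (-(a ^ 2 / (2 * v')))) := by
  have hv0 : v ≠ 0 := by
    rintro rfl
    simp at hvv
    linarith
  have h1 := measure_ge_le_exp_mul_mgf (μ := gaussianReal m v) (X := id) (t := a / v') (m + a)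
    (by positivity) (integrable_exp_mul_gaussianReal _)
  have h2 := measure_le_le_exp_mul_mgf (μ := gaussianReal m v) (X := id) (t := -(a / v')) (m - a)
    (by
      have : 0 ≤ a / v' := by positivity
      linarith) (integrable_exp_mul_gaussianReal _)
  rw [mgf_id_gaussianReal] at h1 h2
  simp only [id, hvv] at h1 h2
  rw [← Real.exp_add] at h1 h2
  have e1 : -(a / v') * (m + a) + (m * (a / v') + v' * (a / v') ^ 2 / 2) = -(a ^ 2 / (2 * v')) := by
    field_simp
    ring
  have e2 : - -(a / v') * (m - a) + (m * -(a / v') + v' * (-(a / v')) ^ 2 / 2) =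
      -(a ^ 2 / (2 * v')) := by
    field_simp
    ring
  rw [e1] at h1
  rw [e2] at h2
  have hsub : {y : ℝ | ¬ |y| ≤ R + a} ⊆ {y | m + a ≤ y} ∪ {y | y ≤ m - a} := by
    intro y hy
    by_contra hcon
    simp only [Set.mem_union, Set.mem_ofPred_eq, not_or, not_le] at hcon
    apply hy
    have := abs_le.mp hR
    rw [abs_le]
    constructor <;> linarith [hcon.1, hcon.2, this.1, this.2]
  calc gaussianReal m v {y | ¬ |y| ≤ R + a}
      ≤ gaussianReal m v ({y | m + a ≤ y} ∪ {y | y ≤ m - a}) := measure_mono hsub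
    _ ≤ gaussianReal m v {y | m + a ≤ y} + gaussianReal m v {y | y ≤ m - a} := measure_union_le _ _
    _ ≤ ENNReal.ofReal (Real.exp (-(a ^ 2 / (2 * v')))) +
        ENNReal.ofReal (Real.exp (-(a ^ 2 / (2 * v')))) := by
        apply add_le_add
        · rw [← ofReal_measureReal]
          exact ENNReal.ofReal_le_ofReal h1
        · rw [← ofReal_measureReal]
          exact ENNReal.ofReal_le_ofReal h2
    _ = _ := by
        rw [← ENNReal.ofReal_add (by positivity) (by positivity)]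
        congr 1
        ring

/-- the estimate for Gaussian laws of the ordinates -/
theorem N_gaussian {n k : ℕ} (hn : 1 ≤ n) (τ : Fin n → Measure ℝ)
    [∀ i, IsProbabilityMeasure (τ i)] (m : Fin n → ℝ) {R σ : ℝ} (hσ : 0 < σ)
    (hm : ∀ i, |m i| ≤ R) :
    ∫⁻ p, (N k p : ℝ≥0∞) ∂(Measure.pi (fun i => (τ i).prod (gaussianReal (m i) (Real.toNNReal (σ ^ 2)))))
      ≤ ENNReal.ofReal (n * (4 * R / σ + 8 * √(Real.log n) + 2)) := by
  set v : ℝ≥0 := Real.toNNReal (σ ^ 2) with hv
  have hvv : (v : ℝ) = σ ^ 2 := Real.coe_toNNReal _ (by positivity)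
  have hv0 : v ≠ 0 := by
    intro h
    rw [h] at hvv
    simp only [NNReal.coe_zero] at hvv
    have : 0 < σ ^ 2 := by positivity
    linarith
  have hR : 0 ≤ R := (abs_nonneg _).trans (hm ⟨0, hn⟩)
  set μ : Fin n → Measure (ℝ × ℝ) := fun i => (τ i).prod (gaussianReal (m i) v) with hμdef
  set c : ℝ := (√(2 * Real.pi * v))⁻¹ with hc
  have hc0 : 0 ≤ c := by positivity
  set ρ : Fin n → Measure ℝ := fun i => ENNReal.ofReal c • τ i with hρ
  have hμ : ∀ i, μ i ≤ (ρ i).prod volume := fun i => prod_gaussian_le (τ i) (m i) hv0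
  have hρf : ∀ i, IsFiniteMeasure (ρ i) := fun i => by
    rw [hρ]
    exact (τ i).smul_finite ENNReal.ofReal_ne_top
  set t : ℝ := 2 * √(Real.log n) with ht
  have ht0 : 0 ≤ t := by positivity
  have hn0 : (0 : ℝ) < n := by exact_mod_cast hn
  have hlog : 0 ≤ Real.log n := Real.log_nonneg (by exact_mod_cast hn)
  set a : ℝ := σ * t with ha
  have ha0 : 0 ≤ a := by positivity
  -- the strip
  have h1 := N_integral (k := k) (M := R + a) (by positivity) μ ρ hμ
  have h2 : (Measure.pi μ) (Strip (R + a))ᶜ ≤ ENNReal.ofReal (2 / n) := by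
    have hsub : (Strip (R + a))ᶜ ⊆ ⋃ i : Fin n, {p : Fin n → ℝ × ℝ | ¬ |(p i).2| ≤ R + a} := by
      intro p hp
      simp only [Strip, Set.mem_compl_iff, Set.mem_ofPred_eq, not_forall] at hp
      obtain ⟨i, hi⟩ := hp
      exact Set.mem_iUnion.mpr ⟨i, hi⟩
    calc (Measure.pi μ) (Strip (R + a))ᶜ
        ≤ (Measure.pi μ) (⋃ i : Fin n, {p : Fin n → ℝ × ℝ | ¬ |(p i).2| ≤ R + a}) :=
          measure_mono hsub
      _ ≤ ∑ i : Fin n, (Measure.pi μ) {p : Fin n → ℝ × ℝ | ¬ |(p i).2| ≤ R + a} :=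
          measure_iUnion_fintype_le _ _
      _ ≤ ∑ _i : Fin n, ENNReal.ofReal (2 * Real.exp (-(a ^ 2 / (2 * σ ^ 2)))) := by
          apply sum_le_sum
          intro i _
          have hmp : MeasurePreserving (fun p : Fin n → ℝ × ℝ => p i) (Measure.pi μ) (μ i) :=
            measurePreserving_eval μ i
          have hms : MeasurableSet {y : ℝ × ℝ | ¬ |y.2| ≤ R + a} :=
            (measurableSet_le measurable_snd.norm measurable_const).compl
          have h3 : (Measure.pi μ) {p : Fin n → ℝ × ℝ | ¬ |(p i).2| ≤ R + a} =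
              μ i {y : ℝ × ℝ | ¬ |y.2| ≤ R + a} :=
            hmp.measure_preimage hms.nullMeasurableSet
          rw [h3]
          have h4 : {y : ℝ × ℝ | ¬ |y.2| ≤ R + a} = Set.univ ×ˢ {y : ℝ | ¬ |y| ≤ R + a} := by
            ext y; simp
          rw [h4, hμdef]
          simp only
          rw [Measure.prod_prod, measure_univ, one_mul]
          exact gaussian_tail hvv (by positivity) ha0 (hm i)
      _ = ENNReal.ofReal (2 / n) := by
          rw [sum_const, card_univ, Fintype.card_fin, nsmul_eq_mul, ← ENNReal.ofReal_natCast,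
            ← ENNReal.ofReal_mul (by positivity)]
          congr 1
          have e1 : a ^ 2 / (2 * σ ^ 2) = 2 * Real.log n := by
            rw [ha, ht, mul_pow, mul_pow, Real.sq_sqrt hlog]
            field_simp
          have e2 : Real.exp (-(2 * Real.log n)) = 1 / (n : ℝ) ^ 2 := by
            rw [Real.exp_neg, two_mul, Real.exp_add, Real.exp_log hn0]
            rw [one_div, sq]
          rw [e1, e2]
          field_simp
  have h5 : ∫⁻ p in (Strip (R + a))ᶜ, (N k p : ℝ≥0∞) ∂(Measure.pi μ) ≤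
      ENNReal.ofReal ((n : ℝ) ^ 2) * ENNReal.ofReal (2 / n) := by
    calc ∫⁻ p in (Strip (R + a))ᶜ, (N k p : ℝ≥0∞) ∂(Measure.pi μ)
        ≤ ∫⁻ _p in (Strip (R + a))ᶜ, ENNReal.ofReal ((n : ℝ) ^ 2) ∂(Measure.pi μ) := by
          apply lintegral_mono
          intro p
          have : (N k p : ℝ≥0∞) ≤ ((n ^ 2 : ℕ) : ℝ≥0∞) := Nat.cast_le.mpr (N_le k p)
          refine this.trans (le_of_eq ?_)
          rw [← ENNReal.ofReal_natCast]
          push_cast
          rfl
      _ = ENNReal.ofReal ((n : ℝ) ^ 2) * (Measure.pi μ) (Strip (R + a))ᶜ := by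
          rw [lintegral_const, Measure.restrict_apply_univ]
      _ ≤ _ := by gcongr
  rw [← lintegral_add_compl _ (measurableSet_strip (R + a))]
  refine (add_le_add h1 h5).trans ?_
  have h6 : ∑ i, ρ i Set.univ = ENNReal.ofReal (n * c) := by
    simp only [hρ, Measure.smul_apply, measure_univ, smul_eq_mul, mul_one, sum_const, card_univ,
      Fintype.card_fin, nsmul_eq_mul]
    rw [ENNReal.ofReal_mul hn0.le, ENNReal.ofReal_natCast]
  rw [h6, ← ENNReal.ofReal_mul (by positivity), ← ENNReal.ofReal_mul (by positivity),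
    ← ENNReal.ofReal_add (by positivity) (by positivity)]
  apply ENNReal.ofReal_le_ofReal
  have hcσ : c ≤ 1 / (2 * σ) := by
    rw [hc, hvv, ← one_div]
    apply one_div_le_one_div_of_le (by positivity)
    have : 2 * σ = √((2 * σ) ^ 2) := (Real.sqrt_sq (by positivity)).symm
    rw [this]
    apply Real.sqrt_le_sqrt
    nlinarith [Real.pi_gt_three, sq_nonneg σ]
  have e3 : (n : ℝ) ^ 2 * (2 / n) = 2 * n := by field_simp
  rw [e3]
  calc 8 * (R + a) * (n * c) + 2 * n ≤ 8 * (R + a) * (n * (1 / (2 * σ))) + 2 * n := by gcongr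
    _ = n * (4 * R / σ + 8 * √(Real.log n) + 2) := by
        rw [ha, ht]
        field_simp
        ring

end Pool.Agent.Run7.h249.SM
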