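import Pool.Agent.Run7.h249.SM.Est

/-! Pairs with `k` points below the line, almost sure general position. -/

set_option autoImplicit false

namespace Pool.Agent.Run7.h249.SM

open Finset MeasureTheory Filter Pool.Agent.H189R2.Lev
open scoped ENNReal Topology

/-- slope of the line through the points `i` and `j` -/
noncomputable def sl {n : ℕ} (p : Fin n → ℝ × ℝ) (i j : Fin n) : ℝ :=
  ((p j).2 - (p i).2) / ((p j).1 - (p i).1)

/-- points strictly below the line through the points `i` and `j` -/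
def Below {n : ℕ} (p : Fin n → ℝ × ℝ) (i j : Fin n) : Set (Fin n) :=
  {l | (p l).2 < (p i).2 + sl p i j * ((p l).1 - (p i).1)}

/-- points strictly above the line through the points `i` and `j` -/
def Above {n : ℕ} (p : Fin n → ℝ × ℝ) (i j : Fin n) : Set (Fin n) :=
  {l | (p i).2 + sl p i j * ((p l).1 - (p i).1) < (p l).2}

/-- pairs with exactly `k` points below and exactly `n - 2 - k` points above -/
def Pk {n : ℕ} (k : ℕ) (p : Fin n → ℝ × ℝ) : Set (Fin n × Fin n) :=
  {q | q.1 < q.2 ∧ (p q.1).1 ≠ (p q.2).1 ∧ (Below p q.1 q.2).ncard = k ∧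
    (Above p q.1 q.2).ncard + k + 2 = n}

theorem ht_eq {n : ℕ} {s : ℝ} (hs : s * s = 1) {p : Fin n → ℝ × ℝ} {i j : Fin n}
    (h : (p i).1 ≠ (p j).1) (l : Fin n) :
    ht (X s p) (Y p) l (cr (X s p) (Y p) i j) = (p l).2 - sl p i j * (p l).1 := by
  have h1 : (p j).1 - (p i).1 ≠ 0 := sub_ne_zero.mpr h.symm
  have hs0 : s ≠ 0 := by rintro rfl; norm_num at hs
  have h2 : s * (p i).1 - s * (p j).1 ≠ 0 := by
    rw [← mul_sub]; exact mul_ne_zero hs0 (sub_ne_zero.mpr h)
  unfold ht cr X Y sl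
  have h3 : s * (p l).1 * (((p j).2 - (p i).2) / (s * (p i).1 - s * (p j).1)) =
      -(((p j).2 - (p i).2) / ((p j).1 - (p i).1) * (p l).1) := by
    field_simp
    linear_combination 0 * hs
  rw [h3]
  ring

theorem posV_iff {n k : ℕ} {s : ℝ} (hs : s * s = 1) {p : Fin n → ℝ × ℝ} {i j : Fin n} :
    PosV (X s p) (Y p) k i j ↔ (p i).1 ≠ (p j).1 ∧ 0 ≤ cr (X s p) (Y p) i j ∧
      (Below p i j).ncard = k ∧ (Above p i j).ncard + k + 2 = n := by
  have hs0 : s ≠ 0 := by rintro rfl; norm_num at hs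
  have h0 : X s p i ≠ X s p j ↔ (p i).1 ≠ (p j).1 := by
    unfold X
    rw [Ne, Ne, mul_right_inj' hs0]
  unfold PosV
  rw [h0]
  have hb : (p i).1 ≠ (p j).1 → {l | ht (X s p) (Y p) l (cr (X s p) (Y p) i j) <
      ht (X s p) (Y p) i (cr (X s p) (Y p) i j)} = Below p i j := by
    intro h1
    ext l
    simp only [Below, Set.mem_ofPred_eq, ht_eq hs h1]
    constructor <;> intro h <;> linarith
  have ha : (p i).1 ≠ (p j).1 → {l | ht (X s p) (Y p) i (cr (X s p) (Y p) i j) <
      ht (X s p) (Y p) l (cr (X s p) (Y p) i j)} = Above p i j := by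
    intro h1
    ext l
    simp only [Above, Set.mem_ofPred_eq, ht_eq hs h1]
    constructor <;> intro h <;> linarith
  constructor
  · rintro ⟨h1, h2, h3, h4⟩
    rw [hb h1] at h3
    rw [ha h1] at h4
    exact ⟨h1, h2, h3, h4⟩
  · rintro ⟨h1, h2, h3, h4⟩
    rw [← hb h1] at h3
    rw [← ha h1] at h4
    exact ⟨h1, h2, h3, h4⟩

theorem cr_neg {n : ℕ} (p : Fin n → ℝ × ℝ) (i j : Fin n) :
    cr (X (-1) p) (Y p) i j = -cr (X 1 p) (Y p) i j := by
  unfold cr X Y
  rw [← div_neg]
  congr 1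
  ring

theorem pk_le {n k : ℕ} (p : Fin n → ℝ × ℝ) :
    (Pk k p).ncard ≤
      {q : Fin n × Fin n | q.1 < q.2 ∧ PosV (X 1 p) (Y p) k q.1 q.2}.ncard +
      {q : Fin n × Fin n | q.1 < q.2 ∧ PosV (X (-1) p) (Y p) k q.1 q.2}.ncard := by
  refine le_trans (Set.ncard_le_ncard ?_ (Set.toFinite _)) (Set.ncard_union_le _ _)
  rintro q ⟨h1, h2, h3, h4⟩
  rcases le_total 0 (cr (X 1 p) (Y p) q.1 q.2) with h | h
  · left
    exact ⟨h1, (posV_iff (by norm_num)).2 ⟨h2, h, h3, h4⟩⟩
  · right
    refine ⟨h1, (posV_iff (by norm_num)).2 ⟨h2, ?_, h3, h4⟩⟩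
    rw [cr_neg]
    linarith

/-- measurability -/
theorem measurable_sl {n : ℕ} (i j : Fin n) : Measurable (fun p : Fin n → ℝ × ℝ => sl p i j) := by
  unfold sl
  exact ((measurable_Y j).sub (measurable_Y i)).div
    ((measurable_fst.comp (measurable_pi_apply j)).sub (measurable_fst.comp (measurable_pi_apply i)))

theorem measurable_rhs {n : ℕ} (i j l : Fin n) :
    Measurable (fun p : Fin n → ℝ × ℝ => (p i).2 + sl p i j * ((p l).1 - (p i).1)) :=
  (measurable_Y i).add ((measurable_sl i j).mul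
    ((measurable_fst.comp (measurable_pi_apply l)).sub (measurable_fst.comp (measurable_pi_apply i))))

theorem measurable_below {n : ℕ} (i j : Fin n) :
    Measurable (fun p : Fin n → ℝ × ℝ => (Below p i j).ncard) :=
  measurable_ncard (fun (p : Fin n → ℝ × ℝ) l =>
    (p l).2 < (p i).2 + sl p i j * ((p l).1 - (p i).1))
    (fun l => measurableSet_lt (measurable_Y l) (measurable_rhs i j l))

theorem measurable_above {n : ℕ} (i j : Fin n) :
    Measurable (fun p : Fin n → ℝ × ℝ => (Above p i j).ncard) :=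
  measurable_ncard (fun (p : Fin n → ℝ × ℝ) l =>
    (p i).2 + sl p i j * ((p l).1 - (p i).1) < (p l).2)
    (fun l => measurableSet_lt (measurable_rhs i j l) (measurable_Y l))

theorem measurableSet_ne' {n : ℕ} (i j : Fin n) :
    MeasurableSet {p : Fin n → ℝ × ℝ | (p i).1 ≠ (p j).1} :=
  (measurableSet_eq_fun (measurable_fst.comp (measurable_pi_apply i))
    (measurable_fst.comp (measurable_pi_apply j))).compl

/-- a count of pairs determined by the numbers of points below and above is measurable -/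
theorem measurable_count {n : ℕ} (A B : Set ℕ) :
    Measurable (fun p : Fin n → ℝ × ℝ => {q : Fin n × Fin n | q.1 < q.2 ∧ (p q.1).1 ≠ (p q.2).1 ∧
      (Below p q.1 q.2).ncard ∈ A ∧ (Above p q.1 q.2).ncard ∈ B}.ncard) := by
  apply measurable_ncard (fun (p : Fin n → ℝ × ℝ) (q : Fin n × Fin n) =>
    q.1 < q.2 ∧ (p q.1).1 ≠ (p q.2).1 ∧ (Below p q.1 q.2).ncard ∈ A ∧
      (Above p q.1 q.2).ncard ∈ B)
  intro q
  exact (MeasurableSet.const _).inter ((measurableSet_ne' q.1 q.2).inter
    ((measurableSet_count (measurable_below q.1 q.2) A).inter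
      (measurableSet_count (measurable_above q.1 q.2) B)))

theorem measurable_pk {n : ℕ} (k : ℕ) :
    Measurable (fun p : Fin n → ℝ × ℝ => (Pk k p).ncard) :=
  measurable_count {c | c = k} {c | c + k + 2 = n}

/-- the estimate for the product measure -/
theorem pk_integral {n k : ℕ} (hk : k + 2 ≤ n) {M : ℝ} (hM : 0 ≤ M)
    (μ : Fin n → Measure (ℝ × ℝ)) [∀ i, IsProbabilityMeasure (μ i)] (ρ : Fin n → Measure ℝ)
    [∀ i, IsFiniteMeasure (ρ i)] (hμ : ∀ i, μ i ≤ (ρ i).prod volume) :
    ∫⁻ p in Strip M, ((Pk k p).ncard : ℝ≥0∞) ∂(Measure.pi μ) ≤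
      ENNReal.ofReal (8 * M) * ∑ i, ρ i Set.univ := by
  have hm : ∀ s : ℝ, Measurable (fun p : Fin n → ℝ × ℝ =>
      ({q : Fin n × Fin n | q.1 < q.2 ∧ PosV (X s p) (Y p) k q.1 q.2}.ncard : ℝ≥0∞)) := by
    intro s
    have h := measurable_ncard (fun (p : Fin n → ℝ × ℝ) (q : Fin n × Fin n) =>
      q.1 < q.2 ∧ PosV (X s p) (Y p) k q.1 q.2)
      (fun q => (MeasurableSet.const _).inter (measurableSet_posV s k q.1 q.2))
    exact (measurable_of_countable (fun c : ℕ => (c : ℝ≥0∞))).comp h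
  calc ∫⁻ p in Strip M, ((Pk k p).ncard : ℝ≥0∞) ∂(Measure.pi μ)
      ≤ ∫⁻ p in Strip M, (({q : Fin n × Fin n | q.1 < q.2 ∧ PosV (X 1 p) (Y p) k q.1 q.2}.ncard : ℝ≥0∞)
        + ({q : Fin n × Fin n | q.1 < q.2 ∧ PosV (X (-1) p) (Y p) k q.1 q.2}.ncard : ℝ≥0∞))
        ∂(Measure.pi μ) := lintegral_mono (fun p => by
          rw [← Nat.cast_add]
          exact Nat.cast_le.mpr (pk_le p))
    _ = _ := lintegral_add_left (hm 1) _
    _ ≤ ENNReal.ofReal (4 * M) * ∑ i, ρ i Set.univ + ENNReal.ofReal (4 * M) * ∑ i, ρ i Set.univ :=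
        add_le_add (sum_pos hk 1 μ ρ hμ) (sum_pos hk (-1) μ ρ hμ)
    _ = _ := by
        rw [← add_mul, ← ENNReal.ofReal_add (by linarith) (by linarith)]
        congr 2
        ring

/-- a condition failing with conditional probability zero given the other points -/
theorem ae_update {n : ℕ} (μ : Fin n → Measure (ℝ × ℝ)) [∀ i, IsProbabilityMeasure (μ i)]
    (l : Fin n) {S : Set (Fin n → ℝ × ℝ)} (hS : MeasurableSet S)
    (h : ∀ p, ∀ᵐ y ∂(μ l), Function.update p l y ∉ S) : ∀ᵐ p ∂(Measure.pi μ), p ∉ S := by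
  rw [ae_iff]
  simp only [not_not]
  have h1 : {p | p ∈ S} = S := rfl
  rw [h1, ← lintegral_indicator_one hS, pi_update μ l (measurable_one.indicator hS)]
  rw [lintegral_eq_zero_iff']
  · apply Eventually.of_forall
    intro p
    simp only [Pi.zero_apply]
    have hm : Measurable (fun y : ℝ × ℝ => S.indicator (1 : (Fin n → ℝ × ℝ) → ℝ≥0∞)
        (Function.update p l y)) :=
      (measurable_one.indicator hS).comp (measurable_update p)
    rw [lintegral_eq_zero_iff hm]
    filter_upwards [h p] with y hy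
    rw [Set.indicator_of_notMem hy]
    rfl
  · exact (Measurable.lintegral_prod_right' (f := fun z : (Fin n → ℝ × ℝ) × (ℝ × ℝ) =>
      S.indicator 1 (Function.update z.1 l z.2))
      ((measurable_one.indicator hS).comp (by
        rw [measurable_pi_iff]
        intro j
        by_cases hj : j = l
        · subst hj
          simpa using measurable_snd
        · simp only [Function.update_of_ne hj]
          exact (measurable_pi_apply j).comp measurable_fst))).aemeasurable

/-- almost surely no three points on a non-vertical line -/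
theorem ae_position {n : ℕ} (μ : Fin n → Measure (ℝ × ℝ)) [∀ i, IsProbabilityMeasure (μ i)]
    (ρ : Fin n → Measure ℝ) [∀ i, IsFiniteMeasure (ρ i)] (hμ : ∀ i, μ i ≤ (ρ i).prod volume) :
    ∀ᵐ p ∂(Measure.pi μ), ∀ i j l : Fin n, l ≠ i → l ≠ j → (p i).1 ≠ (p j).1 →
      (p l).2 ≠ (p i).2 + sl p i j * ((p l).1 - (p i).1) := by
  rw [ae_all_iff]; intro i
  rw [ae_all_iff]; intro j
  rw [ae_all_iff]; intro l
  by_cases hl : l ≠ i ∧ l ≠ j
  swap
  · exact Eventually.of_forall (fun p h1 h2 => absurd ⟨h1, h2⟩ hl)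
  set S : Set (Fin n → ℝ × ℝ) := {p | (p l).2 = (p i).2 + sl p i j * ((p l).1 - (p i).1)} with hS
  have hSm : MeasurableSet S := measurableSet_eq_fun (measurable_Y l) (measurable_rhs i j l)
  have := ae_update μ l hSm (by
    intro p
    have h1 : (ρ l).prod volume {y : ℝ × ℝ | y.2 = (p i).2 + sl p i j * (y.1 - (p i).1)} = 0 := by
      have hmm : MeasurableSet {y : ℝ × ℝ | y.2 = (p i).2 + sl p i j * (y.1 - (p i).1)} :=
        measurableSet_eq_fun measurable_snd (by fun_prop)
      rw [Measure.prod_apply hmm]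
      rw [lintegral_eq_zero_iff (measurable_measure_prodMk_left hmm)]
      apply Eventually.of_forall
      intro u
      have : Prod.mk u ⁻¹' {y : ℝ × ℝ | y.2 = (p i).2 + sl p i j * (y.1 - (p i).1)} =
          {(p i).2 + sl p i j * (u - (p i).1)} := by
        ext v; simp
      simp only [this]
      exact Real.volume_singleton
    have h2 : (μ l) {y : ℝ × ℝ | y.2 = (p i).2 + sl p i j * (y.1 - (p i).1)} = 0 :=
      le_antisymm ((hμ l _).trans h1.le) zero_le
    have h3 : ∀ᵐ y ∂(μ l), ¬ (y.2 = (p i).2 + sl p i j * (y.1 - (p i).1)) := by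
      rw [ae_iff]
      simpa using h2
    filter_upwards [h3] with y hy hmem
    apply hy
    rw [hS, Set.mem_ofPred_eq] at hmem
    have e1 : sl (Function.update p l y) i j = sl p i j := by
      unfold sl
      rw [Function.update_of_ne hl.1.symm, Function.update_of_ne hl.2.symm]
    rw [e1, Function.update_self, Function.update_of_ne hl.1.symm] at hmem
    exact hmem)
  filter_upwards [this] with p hp _ _ _
  exact hp

/-- almost surely distinct abscissas -/
theorem ae_abscissas {n : ℕ} (μ : Fin n → Measure (ℝ × ℝ)) [∀ i, IsProbabilityMeasure (μ i)]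
    (ρ : Fin n → Measure ℝ) [∀ i, IsFiniteMeasure (ρ i)] (hρ : ∀ i x, ρ i {x} = 0)
    (hμ : ∀ i, μ i ≤ (ρ i).prod volume) :
    ∀ᵐ p ∂(Measure.pi μ), ∀ i j : Fin n, i ≠ j → (p i).1 ≠ (p j).1 := by
  rw [ae_all_iff]; intro i
  rw [ae_all_iff]; intro j
  by_cases hij : i = j
  · exact Eventually.of_forall (fun p h => absurd hij h)
  have hSm : MeasurableSet {p : Fin n → ℝ × ℝ | (p i).1 = (p j).1} :=
    measurableSet_eq_fun (measurable_fst.comp (measurable_pi_apply i))
      (measurable_fst.comp (measurable_pi_apply j))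
  have := ae_update μ i hSm (by
    intro p
    have h1 : (ρ i).prod volume {y : ℝ × ℝ | y.1 = (p j).1} = 0 := by
      have : {y : ℝ × ℝ | y.1 = (p j).1} = {(p j).1} ×ˢ Set.univ := by
        ext y; simp
      rw [this, Measure.prod_prod, hρ, zero_mul]
    have h2 : (μ i) {y : ℝ × ℝ | y.1 = (p j).1} = 0 :=
      le_antisymm ((hμ i _).trans h1.le) zero_le
    have h3 : ∀ᵐ y ∂(μ i), ¬ (y.1 = (p j).1) := by
      rw [ae_iff]
      simpa using h2
    filter_upwards [h3] with y hy hmem
    apply hy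
    rw [Function.update_self, Function.update_of_ne (Ne.symm hij)] at hmem
    exact hmem)
  filter_upwards [this] with p hp _
  exact hp

end Pool.Agent.Run7.h249.SM
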