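import Pool.Agent.Run7.h249.SM.Fin

/-! Random variables. -/

set_option autoImplicit false

namespace Pool.Agent.Run7.h249.SM

open Finset MeasureTheory Filter ProbabilityTheory
open scoped ENNReal Topology NNReal

variable {Ω : Type*} [MeasurableSpace Ω] (P : Measure Ω) [IsProbabilityMeasure P] {n : ℕ}
  (p : Fin n → Ω → ℝ × ℝ)

theorem map_law (hp : ∀ i, Measurable (p i)) (hind : iIndepFun p P) :
    P.map (fun ω i => p i ω) = Measure.pi (fun i => P.map (p i)) :=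
  (iIndepFun_iff_map_fun_eq_pi_map (fun i => (hp i).aemeasurable)).mp hind

theorem meas_vec (hp : ∀ i, Measurable (p i)) : Measurable (fun ω i => p i ω) :=
  measurable_pi_iff.mpr hp

theorem prob_law (hp : ∀ i, Measurable (p i)) (i : Fin n) : IsProbabilityMeasure (P.map (p i)) :=
  Measure.isProbabilityMeasure_map (hp i).aemeasurable

theorem measurable_count_rv (hp : ∀ i, Measurable (p i)) (k : ℕ) :
    Measurable (fun ω => (N k (fun i => p i ω) : ℝ≥0∞)) :=
  (measurable_of_countable (fun c : ℕ => (c : ℝ≥0∞))).comp ((measurable_N k).comp (meas_vec p hp))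

/-- transfer of an almost sure statement -/
theorem ae_rv (hp : ∀ i, Measurable (p i)) (hind : iIndepFun p P) {Q : (Fin n → ℝ × ℝ) → Prop}
    (h : ∀ᵐ x ∂(Measure.pi (fun i => P.map (p i))), Q x) : ∀ᵐ ω ∂P, Q (fun i => p i ω) := by
  rw [← map_law P p hp hind] at h
  exact ae_of_ae_map (meas_vec p hp).aemeasurable h

theorem count_rv (hp : ∀ i, Measurable (p i)) (hind : iIndepFun p P) (k : ℕ)
    {S : Set (Fin n → ℝ × ℝ)} (hS : MeasurableSet S) :
    ∫⁻ ω in {ω | (fun i => p i ω) ∈ S}, (N k (fun i => p i ω) : ℝ≥0∞) ∂P =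
      ∫⁻ x in S, (N k x : ℝ≥0∞) ∂(Measure.pi (fun i => P.map (p i))) := by
  rw [← map_law P p hp hind]
  exact (setLIntegral_map hS ((measurable_of_countable (fun c : ℕ => (c : ℝ≥0∞))).comp
    (measurable_N k)) (meas_vec p hp)).symm

theorem count_rv' (hp : ∀ i, Measurable (p i)) (hind : iIndepFun p P) (k : ℕ) :
    ∫⁻ ω, (N k (fun i => p i ω) : ℝ≥0∞) ∂P =
      ∫⁻ x, (N k x : ℝ≥0∞) ∂(Measure.pi (fun i => P.map (p i))) := by
  rw [← map_law P p hp hind]
  exact (lintegral_map ((measurable_of_countable (fun c : ℕ => (c : ℝ≥0∞))).comp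
    (measurable_N k)) (meas_vec p hp)).symm

/-- for almost surely good points the bisector count is a.e. measurable and dominated -/
theorem aemeas_bis (hp : ∀ i, Measurable (p i)) (h : ∀ᵐ ω ∂P, Good (fun i => p i ω)) :
    AEMeasurable (fun ω => ({L | IsBisector (univ.image (fun i => p i ω)) L}.ncard : ℝ≥0∞)) P := by
  refine ⟨fun ω => ((Bp (fun i => p i ω)).ncard : ℝ≥0∞),
    (measurable_of_countable (fun c : ℕ => (c : ℝ≥0∞))).comp (measurable_Bp.comp (meas_vec p hp)), ?_⟩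
  filter_upwards [h] with ω hω
  rw [ncard_bisector hω]

theorem bis_dom (h : ∀ᵐ ω ∂P, Good (fun i => p i ω)) :
    ∀ᵐ ω ∂P, ({L | IsBisector (univ.image (fun i => p i ω)) L}.ncard : ℝ≥0∞) ≤
      (N (n / 2 - 1) (fun i => p i ω) : ℝ≥0∞) := by
  filter_upwards [h] with ω hω
  exact Nat.cast_le.mpr (bis_le hω)

/-- the general statement -/
theorem general (hp : ∀ i, Measurable (p i)) (hind : iIndepFun p P) (ρ : Fin n → Measure ℝ)
    (hρf : ∀ i, IsFiniteMeasure (ρ i)) (hρ : ∀ i, P.map (p i) ≤ (ρ i).prod volume) :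
    (∀ᵐ ω ∂P, ∀ i j l : Fin n, l ≠ i → l ≠ j → (p i ω).1 ≠ (p j ω).1 →
      (p l ω).2 ≠ (p i ω).2 + ((p j ω).2 - (p i ω).2) / ((p j ω).1 - (p i ω).1) *
        ((p l ω).1 - (p i ω).1)) ∧
    (∀ (k : ℕ) (M : ℝ), 0 ≤ M →
      ∫⁻ ω in {ω | ∀ i, |(p i ω).2| ≤ M}, (N k (fun i => p i ω) : ℝ≥0∞) ∂P ≤
        ENNReal.ofReal (8 * M) * ∑ i, ρ i Set.univ) ∧
    ((∀ i x, ρ i {x} = 0) → (∀ᵐ ω ∂P, Good (fun i => p i ω)) ∧
      ∀ M : ℝ, 0 ≤ M → ∫⁻ ω in {ω | ∀ i, |(p i ω).2| ≤ M},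
        ({L | IsBisector (univ.image (fun i => p i ω)) L}.ncard : ℝ≥0∞) ∂P ≤
          ENNReal.ofReal (8 * M) * ∑ i, ρ i Set.univ) := by
  have := prob_law P p hp
  have hN : ∀ (k : ℕ) (M : ℝ), 0 ≤ M →
      ∫⁻ ω in {ω | ∀ i, |(p i ω).2| ≤ M}, (N k (fun i => p i ω) : ℝ≥0∞) ∂P ≤
        ENNReal.ofReal (8 * M) * ∑ i, ρ i Set.univ := by
    intro k M hM
    have h1 := count_rv P p hp hind k (measurableSet_strip M)
    have h2 := N_integral (k := k) hM (fun i => P.map (p i)) ρ hρ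
    rw [← h1] at h2
    exact h2
  refine ⟨ae_rv P p hp hind (ae_position _ ρ hρ), hN, fun hρ0 => ?_⟩
  have hg : ∀ᵐ ω ∂P, Good (fun i => p i ω) := ae_rv P p hp hind (ae_good _ ρ hρ0 hρ)
  refine ⟨hg, fun M hM => ?_⟩
  exact (lintegral_mono_ae (ae_restrict_of_ae (bis_dom P p hg))).trans (hN _ M hM)

/-- bounded densities in rectangles -/
theorem bounded (hp : ∀ i, Measurable (p i)) (hind : iIndepFun p P) {M : ℝ} (hM : 0 ≤ M)
    (δ a w : Fin n → ℝ) (hδ : ∀ i, 0 ≤ δ i) (hw : ∀ i, 0 ≤ w i)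
    (hl : ∀ i, P.map (p i) ≤ ENNReal.ofReal (δ i) •
      (volume : Measure (ℝ × ℝ)).restrict (Set.Icc (a i) (a i + w i) ×ˢ Set.Icc (-M) M)) :
    (∀ᵐ ω ∂P, Good (fun i => p i ω)) ∧
    (∀ k, ∫⁻ ω, (N k (fun i => p i ω) : ℝ≥0∞) ∂P ≤ ENNReal.ofReal (8 * M * ∑ i, w i * δ i)) ∧
    ∫⁻ ω, ({L | IsBisector (univ.image (fun i => p i ω)) L}.ncard : ℝ≥0∞) ∂P ≤
      ENNReal.ofReal (8 * M * ∑ i, w i * δ i) := by
  set ρ : Fin n → Measure ℝ := fun i =>
    ENNReal.ofReal (δ i) • (volume.restrict (Set.Icc (a i) (a i + w i))) with hρ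
  have hρf : ∀ i, IsFiniteMeasure (ρ i) := fun i => by
    rw [hρ]
    exact Measure.smul_finite _ ENNReal.ofReal_ne_top
  have hdom : ∀ i, P.map (p i) ≤ (ρ i).prod volume := by
    intro i
    refine (hl i).trans ?_
    rw [hρ]
    simp only
    rw [Measure.prod_smul_left, Measure.volume_eq_prod, ← Measure.prod_restrict]
    gcongr
    exact Measure.restrict_le_self
  have hρ0 : ∀ i x, ρ i {x} = 0 := by
    intro i x
    simp only [hρ, Measure.smul_apply, smul_eq_mul]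
    rw [Measure.restrict_apply (measurableSet_singleton x)]
    have : volume ({x} ∩ Set.Icc (a i) (a i + w i)) = 0 :=
      le_antisymm ((measure_mono Set.inter_subset_left).trans Real.volume_singleton.le) zero_le
    rw [this, mul_zero]
  obtain ⟨-, h2, h3⟩ := general P p hp hind ρ hρf hdom
  obtain ⟨h3, h4⟩ := h3 hρ0
  have hstrip : ∀ᵐ ω ∂P, ∀ i, |(p i ω).2| ≤ M := by
    rw [ae_all_iff]
    intro i
    have hms : MeasurableSet {y : ℝ × ℝ | ¬ |y.2| ≤ M} :=
      (measurableSet_le measurable_snd.norm measurable_const).compl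
    have h5 : (P.map (p i)) {y : ℝ × ℝ | ¬ |y.2| ≤ M} = 0 := by
      refine le_antisymm ((hl i _).trans ?_) zero_le
      rw [Measure.smul_apply, Measure.restrict_apply hms]
      have : {y : ℝ × ℝ | ¬ |y.2| ≤ M} ∩ (Set.Icc (a i) (a i + w i) ×ˢ Set.Icc (-M) M) = ∅ := by
        ext y
        simp only [Set.mem_inter_iff, Set.mem_ofPred_eq, Set.mem_prod, Set.mem_empty_iff_false,
          iff_false, not_and]
        intro h _ h'
        exact h (abs_le.mpr h')
      rw [this, measure_empty, smul_zero]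
    rw [Measure.map_apply (hp i) hms] at h5
    rw [ae_iff]
    exact h5
  have hsum : ENNReal.ofReal (8 * M) * ∑ i, ρ i Set.univ =
      ENNReal.ofReal (8 * M * ∑ i, w i * δ i) := by
    rw [ENNReal.ofReal_mul (p := 8 * M) (by positivity), ENNReal.ofReal_sum_of_nonneg
      (fun i _ => mul_nonneg (hw i) (hδ i))]
    congr 1
    apply sum_congr rfl
    intro i _
    simp only [hρ, Measure.smul_apply, Measure.restrict_apply_univ, smul_eq_mul, Real.volume_Icc]
    rw [mul_comm (w i), ENNReal.ofReal_mul (hδ i)]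
    congr 2
    ring
  have hres : P.restrict {ω | ∀ i, |(p i ω).2| ≤ M} = P :=
    Measure.restrict_eq_self_of_ae_mem hstrip
  refine ⟨h3, fun k => ?_, ?_⟩
  · have := h2 k M hM
    rwa [hres, hsum] at this
  · have := h4 M hM
    rwa [hres, hsum] at this

/-- Gaussian perturbations -/
theorem gaussian (hp : ∀ i, Measurable (p i)) (hind : iIndepFun p P) (c : Fin n → ℝ × ℝ) {R σ : ℝ}
    (hn : 1 ≤ n) (hσ : 0 < σ) (hc : ∀ i, |(c i).2| ≤ R)
    (hl : ∀ i, P.map (p i) = (gaussianReal (c i).1 (Real.toNNReal (σ ^ 2))).prod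
      (gaussianReal (c i).2 (Real.toNNReal (σ ^ 2)))) :
    (∀ᵐ ω ∂P, Good (fun i => p i ω)) ∧
    (∀ k, ∫⁻ ω, (N k (fun i => p i ω) : ℝ≥0∞) ∂P ≤
      ENNReal.ofReal (n * (4 * R / σ + 8 * √(Real.log n) + 2))) ∧
    ∫⁻ ω, ({L | IsBisector (univ.image (fun i => p i ω)) L}.ncard : ℝ≥0∞) ∂P ≤
      ENNReal.ofReal (n * (4 * R / σ + 8 * √(Real.log n) + 2)) := by
  set v : ℝ≥0 := Real.toNNReal (σ ^ 2) with hv
  have hvv : (v : ℝ) = σ ^ 2 := Real.coe_toNNReal _ (by positivity)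
  have hv0 : v ≠ 0 := by
    intro h
    rw [h] at hvv
    simp only [NNReal.coe_zero] at hvv
    have : 0 < σ ^ 2 := by positivity
    linarith
  set ρ : Fin n → Measure ℝ := fun i =>
    ENNReal.ofReal ((√(2 * Real.pi * v))⁻¹) • gaussianReal (c i).1 v with hρ
  have hρf : ∀ i, IsFiniteMeasure (ρ i) := fun i => by
    rw [hρ]
    exact Measure.smul_finite _ ENNReal.ofReal_ne_top
  have hdom : ∀ i, P.map (p i) ≤ (ρ i).prod volume := by
    intro i
    rw [hl i]
    exact prod_gaussian_le _ _ hv0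
  have hρ0 : ∀ i x, ρ i {x} = 0 := by
    intro i x
    simp only [hρ, Measure.smul_apply, smul_eq_mul]
    have : gaussianReal (c i).1 v {x} = 0 :=
      (gaussianReal_absolutelyContinuous _ hv0) Real.volume_singleton
    rw [this, mul_zero]
  obtain ⟨-, -, h3⟩ := general P p hp hind ρ hρf hdom
  obtain ⟨h3, -⟩ := h3 hρ0
  have hN : ∀ k, ∫⁻ ω, (N k (fun i => p i ω) : ℝ≥0∞) ∂P ≤
      ENNReal.ofReal (n * (4 * R / σ + 8 * √(Real.log n) + 2)) := by
    intro k
    rw [count_rv' P p hp hind k]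
    have h1 : (fun i => P.map (p i)) = fun i => (gaussianReal (c i).1 v).prod
        (gaussianReal (c i).2 (Real.toNNReal (σ ^ 2))) := by
      ext1 i
      exact hl i
    rw [h1]
    exact N_gaussian (k := k) hn (fun i => gaussianReal (c i).1 v) (fun i => (c i).2) hσ hc
  exact ⟨h3, hN, (lintegral_mono_ae (bis_dom P p h3)).trans (hN _)⟩

end Pool.Agent.Run7.h249.SM
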